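import Mathlib

open scoped ContDiff Topology RealInnerProductSpace
open Set Metric

namespace Pool.Agent.Results.MP_402458_gt.NotOpen

abbrev E2 : Type := EuclideanSpace ℝ (Fin 2)
abbrev E3 : Type := EuclideanSpace ℝ (Fin 3)

/-- `F` parametrises a closed, connected, smoothly embedded surface `N = F(ℝ²)` in `ℝ³`. -/
def IsSurface (F : E2 → E3) : Prop :=
  ContDiff ℝ ∞ F ∧ Topology.IsClosedEmbedding F ∧ ∀ a, Function.Injective (fderiv ℝ F a)

/-- `v` is a unit normal vector of `N` at the point `n`. -/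
def IsUnitNormal (F : E2 → E3) (n v : E3) : Prop :=
  ‖v‖ = 1 ∧ ∃ a, F a = n ∧ ∀ w, ⟪v, fderiv ℝ F a w⟫ = 0

/-- The times `t` with `d(N, γ_v(t)) = t`; the cut time is the supremum of this set. -/
def times (F : E2 → E3) (n v : E3) : Set ℝ := {t | infDist (n + t • v) (range F) = t}

/-- The tangent cut locus: the normal vectors `ρ(v) v` (with their foot points), `ρ(v) < ∞`. -/
def tanCut (F : E2 → E3) : Set (E3 × E3) :=
  {u | ∃ v, IsUnitNormal F u.1 v ∧ BddAbove (times F u.1 v) ∧ u.2 = sSup (times F u.1 v) • v}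

/-- The cut locus, the image of the tangent cut locus under the normal exponential map. -/
def cut (F : E2 → E3) : Set E3 := (fun u : E3 × E3 => u.1 + u.2) '' tanCut F

/-- The unit speed geodesic from `n ∈ N` with velocity `v` is an `N`-segment ending at `p`. -/
def IsSegment (F : E2 → E3) (p n v : E3) : Prop :=
  n ∈ range F ∧ ‖v‖ = 1 ∧ p = n + infDist p (range F) • v

/-- The separating set: points joined to `N` by two distinct `N`-segments. -/
def sep (F : E2 → E3) : Set E3 :=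
  {p | p ∉ range F ∧ ∃ n v n' v', IsSegment F p n v ∧ IsSegment F p n' v' ∧ (n, v) ≠ (n', v')}

/-- The tangent separating set. -/
def tanSep (F : E2 → E3) : Set (E3 × E3) := {u ∈ tanCut F | u.1 + u.2 ∈ sep F}

noncomputable def b (y : ℝ) : ℝ := Real.smoothTransition (-6 - 20 * y) * (-(4 / 3) * y - 1 / 3)

lemma b_zero {y : ℝ} (h : -3 / 10 ≤ y) : b y = 0 := by
  rw [b, Real.smoothTransition.zero_of_nonpos (by linarith), zero_mul]

lemma b_prop (y : ℝ) : 0 ≤ b y ∧ b y ≤ y ^ 2 + b y ^ 2 := by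
  by_cases h : -3 / 10 ≤ y
  · rw [b_zero h]; exact ⟨le_rfl, by positivity⟩
  have h0 := Real.smoothTransition.nonneg (-6 - 20 * y)
  have h1 := Real.smoothTransition.le_one (-6 - 20 * y)
  have hl : 0 ≤ -(4 / 3) * y - 1 / 3 := by linarith
  have hb : b y ≤ -(4 / 3) * y - 1 / 3 := mul_le_of_le_one_left hl h1
  have hb0 : 0 ≤ b y := mul_nonneg h0 hl
  refine ⟨hb0, ?_⟩
  by_cases h2 : y ≤ -1 / 2
  · nlinarith [sq_nonneg (b y - 1 / 2)]
  · nlinarith [sq_nonneg (y + 2 / 5), mul_nonneg (sub_nonneg.2 hb)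
      (show 0 ≤ 1 - b y - (-(4 / 3) * y - 1 / 3) by linarith)]

lemma b_val : b (-2 / 5) = 1 / 5 := by
  rw [b, Real.smoothTransition.one_of_one_le (by norm_num)]; norm_num

noncomputable def F (a : E2) : E3 := !₂[a 0, a 1, a 0 ^ 2 + b (a 1)]

lemma b_smooth : ContDiff ℝ ∞ b :=
  (Real.smoothTransition.contDiff.comp (by fun_prop)).mul (by fun_prop)

lemma F_smooth : ContDiff ℝ ∞ F := by
  rw [contDiff_euclidean]
  intro i
  have := b_smooth
  fin_cases i <;> simp [F] <;> fun_prop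

noncomputable def P : E3 →L[ℝ] E2 :=
  LinearMap.toContinuousLinearMap
    { toFun := fun x => !₂[x 0, x 1]
      map_add' := by intro x y; ext i; fin_cases i <;> simp
      map_smul' := by intro c x; ext i; fin_cases i <;> simp }

lemma PF (a : E2) : P (F a) = a := by ext i; fin_cases i <;> rfl

lemma surf : IsSurface F := by
  refine ⟨F_smooth, Function.LeftInverse.isClosedEmbedding PF P.continuous F_smooth.continuous,
    fun a => ?_⟩
  have h := (P.hasFDerivAt.comp a ((F_smooth.differentiable (by simp)) a).hasFDerivAt).unique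
    ((hasFDerivAt_id a).congr_of_eventuallyEq (Filter.Eventually.of_forall PF))
  exact Function.LeftInverse.injective (g := P) fun w => congrArg (fun f : E2 →L[ℝ] E2 => f w) h

noncomputable def ez : E3 := !₂[0, 0, 1]
noncomputable def nn (s : ℝ) : E3 := !₂[0, s, 0]

lemma ez_norm : ‖ez‖ = 1 := by simp [EuclideanSpace.norm_eq, Fin.sum_univ_three, ez]

lemma dsq (s t : ℝ) (a : E2) : dist (nn s + t • ez) (F a) ^ 2 =
    a 0 ^ 2 + (s - a 1) ^ 2 + (t - (a 0 ^ 2 + b (a 1))) ^ 2 := by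
  rw [EuclideanSpace.dist_eq, Real.sq_sqrt (by positivity)]
  simp [Fin.sum_univ_three, nn, ez, F, Real.dist_eq, sq_abs]

lemma F_nn {s : ℝ} (hs : 0 ≤ s) : F !₂[0, s] = nn s := by
  ext i; fin_cases i <;> simp [F, nn, b_zero (show -3 / 10 ≤ s by linarith)]

lemma low {s : ℝ} (hs : 0 ≤ s) (a : E2) : 1 / 4 ≤ dist (nn s + (1 / 2 : ℝ) • ez) (F a) ^ 2 ∧
    (0 < s → dist (nn s + (1 / 2 : ℝ) • ez) (F a) ^ 2 = 1 / 4 → F a = nn s) := by
  rw [dsq]
  obtain ⟨h0, h1⟩ := b_prop (a 1)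
  have h2 := mul_nonneg (sq_nonneg (a 0)) h0
  by_cases h : 0 ≤ a 1
  · have hb := b_zero (show -3 / 10 ≤ a 1 by linarith)
    rw [hb]
    refine ⟨by nlinarith [sq_nonneg (s - a 1), sq_nonneg (a 0 ^ 2)], fun _ e => ?_⟩
    have e1 : (a 0 ^ 2) ^ 2 = 0 := by nlinarith [sq_nonneg (s - a 1), sq_nonneg (a 0 ^ 2)]
    have e2 : (s - a 1) ^ 2 = 0 := by nlinarith [sq_nonneg (s - a 1), sq_nonneg (a 0 ^ 2)]
    have e3 : a 0 = 0 := by simpa using e1
    have e4 : a 1 = s := by have := pow_eq_zero_iff (two_ne_zero) |>.1 e2; linarith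
    rw [← F_nn hs]; congr 1; ext i; fin_cases i <;> simp [e3, e4]
  · push Not at h
    refine ⟨by nlinarith [sq_nonneg (a 0 ^ 2), mul_nonneg hs (neg_nonneg.2 h.le), sq_nonneg s],
      fun hs' e => ?_⟩
    nlinarith [sq_nonneg (a 0 ^ 2), mul_pos hs' (neg_pos.2 h), sq_nonneg s]

lemma inf_half {s : ℝ} (hs : 0 ≤ s) : infDist (nn s + (1 / 2 : ℝ) • ez) (range F) = 1 / 2 := by
  refine le_antisymm ((infDist_le_dist_of_mem (show nn s ∈ range F from ⟨_, F_nn hs⟩)).trans ?_) ?_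
  · simp [norm_smul, ez_norm]
  · rw [le_infDist (range_nonempty F)]
    rintro _ ⟨a, rfl⟩
    nlinarith [(low hs a).1, dist_nonneg (x := nn s + (1 / 2 : ℝ) • ez) (y := F a)]

lemma greatest {s : ℝ} (hs : 0 ≤ s) : IsGreatest (times F (nn s) ez) (1 / 2) := by
  refine ⟨inf_half hs, fun t ht => ?_⟩
  by_contra h
  push Not at h
  have h1 := infDist_le_dist_of_mem (x := nn s + t • ez) (mem_range_self (f := F) !₂[√(t - 1 / 2), s])
  rw [show infDist _ _ = t from ht] at h1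
  have h2 := dsq s t !₂[√(t - 1 / 2), s]
  have h3 : √(t - 1 / 2) ^ 2 = t - 1 / 2 := Real.sq_sqrt (by linarith)
  simp only [Matrix.cons_val, b_zero (show -3 / 10 ≤ s by linarith), h3] at h2
  nlinarith

lemma mem_tanCut {s : ℝ} (hs : 0 ≤ s) : (nn s, (1 / 2 : ℝ) • ez) ∈ tanCut F := by
  refine ⟨ez, ⟨ez_norm, _, F_nn hs, fun w => ?_⟩, (greatest hs).bddAbove, by
    rw [(greatest hs).csSup_eq]⟩
  have h1 := ((F_smooth.differentiable (by simp)) !₂[0, s]).hasFDerivAt
  have h2 := (EuclideanSpace.proj (𝕜 := ℝ) (2 : Fin 3)).hasFDerivAt.comp _ h1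
  have hm : IsLocalMin (EuclideanSpace.proj (𝕜 := ℝ) (2 : Fin 3) ∘ F) !₂[0, s] :=
    Filter.Eventually.of_forall fun a => by
      have := (b_prop (a 1)).1
      simp only [Function.comp, F_nn hs]
      simp [nn, F]; positivity
  have h3 := congrArg (fun f : E2 →L[ℝ] ℝ => f w) (hm.hasFDerivAt_eq_zero h2)
  simpa [ez, PiLp.inner_apply, Fin.sum_univ_three] using h3

lemma not_sep {s : ℝ} (hs : 0 < s) : nn s + (1 / 2 : ℝ) • ez ∉ sep F := by
  have key : ∀ n v, IsSegment F (nn s + (1 / 2 : ℝ) • ez) n v → n = nn s ∧ v = ez := by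
    rintro _ v ⟨⟨a, rfl⟩, hv, e⟩
    rw [inf_half hs.le] at e
    have h1 : F a = nn s := (low hs.le a).2 hs (by rw [e]; simp [norm_smul, hv]; norm_num)
    rw [h1, add_right_inj] at e
    exact ⟨h1, (smul_right_injective _ (by norm_num) e).symm⟩
  rintro ⟨-, n, v, n', v', h1, h2, h⟩
  exact h (by rw [(key _ _ h1).1, (key _ _ h1).2, (key _ _ h2).1, (key _ _ h2).2])

lemma mem_sep : nn 0 + (1 / 2 : ℝ) • ez ∈ sep F := by
  refine ⟨fun h => ?_, nn 0, ez, F !₂[0, -2 / 5], !₂[0, 4 / 5, 3 / 5],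
    ⟨⟨_, F_nn le_rfl⟩, ez_norm, by rw [inf_half le_rfl]⟩, ⟨⟨_, rfl⟩, ?_, ?_⟩, fun h => ?_⟩
  · have := infDist_zero_of_mem h
    rw [inf_half le_rfl] at this
    norm_num at this
  · simp [EuclideanSpace.norm_eq, Fin.sum_univ_three]; norm_num
  · rw [inf_half le_rfl]
    ext i; fin_cases i <;> simp [nn, ez, F, b_val] <;> norm_num
  · have := congrArg (fun q : E3 × E3 => q.2 1) h
    simp [ez] at this
    norm_num at this

/-- For a closed connected surface `N` in Euclidean `ℝ³`, a point of the tangent separating set is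
a limit of tangent cut points outside it, and a point of `Se(N)` is a limit of points of
`Cu(N) ∖ Se(N)`. -/
theorem result : ∃ F : E2 → E3, IsSurface F ∧
    (∃ u ∈ tanSep F, u ∈ closure (tanCut F \ tanSep F)) ∧
      ∃ p ∈ sep F ∩ cut F, p ∈ closure (cut F \ sep F) := by
  have hc : Continuous nn := by unfold nn; fun_prop
  have h0 : (0 : ℝ) ∈ closure (Ioi 0) := by simp
  refine ⟨F, surf, ⟨_, ⟨mem_tanCut le_rfl, mem_sep⟩, ?_⟩, _, ⟨mem_sep, _, mem_tanCut le_rfl, rfl⟩, ?_⟩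
  · exact map_mem_closure (f := fun s => (nn s, (1 / 2 : ℝ) • ez)) (by fun_prop) h0
      fun s hs => ⟨mem_tanCut (le_of_lt hs), fun h => not_sep hs h.2⟩
  · exact map_mem_closure (f := fun s => nn s + (1 / 2 : ℝ) • ez) (by fun_prop) h0
      fun s hs => ⟨⟨_, mem_tanCut (le_of_lt hs), rfl⟩, not_sep hs⟩

end Pool.Agent.Results.MP_402458_gt.NotOpen
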